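import Pool.Agent.E8helper15.FT.Stm3
import Pool.Agent.E8helper15.FT.Sem

/-! Project FT, piece BADP. -/

set_option autoImplicit false

namespace Pool.Agent.E8helper64.FT

open NumberField IsDedekindDomain
open Pool.Agent.E8helper15.FT
open Pool.Agent.TH876.FH (GoodAt)

/-- `c₄` is integral -/
lemma c4_le {w : HeightOneSpectrum (𝓞 ℚ)} {W : WeierstrassCurve ℚ}
    (h1 : w.valuation ℚ W.a₁ ≤ 1) (h2 : w.valuation ℚ W.a₂ ≤ 1) (h3 : w.valuation ℚ W.a₃ ≤ 1)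
    (h4 : w.valuation ℚ W.a₄ ≤ 1) : w.valuation ℚ W.c₄ ≤ 1 := by
  let O := (w.valuation ℚ).integer
  have mO : ∀ x : ℚ, w.valuation ℚ x ≤ 1 → x ∈ O := fun x hx => hx
  have nO : ∀ n : ℕ, (n : ℚ) ∈ O := fun n => mO _ (by
    have := val_int_le w n
    simpa using this)
  have b2 : W.b₂ ∈ O := by
    unfold WeierstrassCurve.b₂
    exact O.add_mem (O.pow_mem (mO _ h1) 2) (O.mul_mem (nO 4) (mO _ h2))
  have b4 : W.b₄ ∈ O := by
    unfold WeierstrassCurve.b₄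
    exact O.add_mem (O.mul_mem (nO 2) (mO _ h4)) (O.mul_mem (mO _ h1) (mO _ h3))
  have : W.c₄ ∈ O := by
    unfold WeierstrassCurve.c₄
    exact O.sub_mem (O.pow_mem b2 2) (O.mul_mem (nO 24) b4)
  exact this

lemma crv_comm (a c : ℤ) : crv a c = crv c a := by
  unfold crv
  congr 1 <;> ring

lemma key (w : HeightOneSpectrum (𝓞 ℚ)) (a c : ℤ) (h2 : w.valuation ℚ (2 : ℚ) = 1)
    (ha : w.valuation ℚ (a : ℚ) < 1) (hc : w.valuation ℚ (c : ℚ) = 1) :
    w.valuation ℚ (crv a c).c₄ = 1 ∧ w.valuation ℚ (crv a c).Δ < 1 := by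
  constructor
  · have e4 : w.valuation ℚ ((a : ℚ) ^ 2 - a * c + (c : ℚ) ^ 2) = 1 := by
      rw [show (a : ℚ) ^ 2 - a * c + (c : ℚ) ^ 2 = ((a : ℚ) - c) * a + c ^ 2 by ring]
      rw [Valuation.map_add_eq_of_lt_right]
      · rw [map_pow, hc, one_pow]
      · rw [map_mul, map_pow, hc, one_pow]
        have := val_int_le w (a - c)
        exact lt_of_le_of_lt (mul_le_of_le_one_left' (by simpa using this)) ha
    rw [crv_c4, map_mul, e4, val_two_four w h2, one_mul]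
  · rw [crv_delta, map_mul, map_mul, map_mul, map_pow, map_pow, map_pow, hc, val_two_four w h2,
      one_pow, mul_one, one_mul]
    have h3 : w.valuation ℚ ((c : ℚ) - a) ≤ 1 := by
      have := val_int_le w (c - a)
      simpa using this
    have h4 : w.valuation ℚ ((c : ℚ) - a) ^ 2 ≤ 1 := pow_le_one' h3 2
    have h5 : w.valuation ℚ (a : ℚ) ^ 2 < 1 := pow_lt_one₀ zero_le' ha (by norm_num)
    exact lt_of_le_of_lt (mul_le_of_le_one_right' h4) h5

lemma bad (w : HeightOneSpectrum (𝓞 ℚ)) (E : WeierstrassCurve ℚ)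
    (h : w.valuation ℚ E.c₄ = 1 ∧ w.valuation ℚ E.Δ < 1) : ¬ GoodAt w E := by
  rintro ⟨C, h1, h2, h3, h4, h5, hΔ⟩
  obtain ⟨hc4, hd⟩ := h
  have hW := c4_le h1 h2 h3 h4
  rw [WeierstrassCurve.variableChange_c₄, map_mul, hc4, mul_one, map_pow] at hW
  rw [WeierstrassCurve.variableChange_Δ, map_mul, map_pow] at hΔ
  have h6 : w.valuation ℚ ((C.u⁻¹ : ℚˣ) : ℚ) ^ 12 ≤ 1 := by
    have := pow_le_one' hW 3
    rwa [← pow_mul] at this
  have h7 : w.valuation ℚ ((C.u⁻¹ : ℚˣ) : ℚ) ^ 12 * w.valuation ℚ E.Δ < 1 :=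
    lt_of_le_of_lt (mul_le_of_le_one_left' h6) hd
  exact absurd hΔ h7.ne

theorem t_BADP : S_BADP := by
  intro p u v hp hp2 hcop hdiv _ w hw
  have hE : (⟨0, (u : ℚ) ^ 4 + (v : ℚ) ^ 4, 0, (u : ℚ) ^ 4 * (v : ℚ) ^ 4, 0⟩ :
      WeierstrassCurve ℚ) = crv (-u ^ 4) (-v ^ 4) := by
    unfold crv
    congr 1 <;> push_cast <;> ring
  rw [hE]
  apply bad
  have h2 : w.valuation ℚ (2 : ℚ) = 1 := by
    have hc : IsCoprime (2 : ℤ) (p : ℤ) := by
      have : Nat.Coprime 2 p := (Nat.coprime_primes Nat.prime_two hp).mpr (Ne.symm hp2)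
      exact_mod_cast Nat.isCoprime_iff_coprime.mpr this
    rcases val_cop w 2 p hc with h | h
    · simpa using h
    · exfalso
      rw [Int.cast_natCast] at h
      exact absurd h hw.ne
  have hlt : ∀ x : ℤ, (p : ℤ) ∣ x → w.valuation ℚ (x : ℚ) < 1 := by
    rintro x ⟨k, rfl⟩
    rw [Int.cast_mul, Int.cast_natCast, map_mul]
    exact lt_of_le_of_lt (mul_le_of_le_one_right' (val_int_le w k)) hw
  have h4 : ∀ x : ℤ, w.valuation ℚ (((-x ^ 4 : ℤ)) : ℚ) = w.valuation ℚ (x : ℚ) ^ 4 := by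
    intro x
    push_cast
    rw [Valuation.map_neg, map_pow]
  have hpow : ∀ x : ℤ, w.valuation ℚ (x : ℚ) < 1 → w.valuation ℚ (((-x ^ 4 : ℤ)) : ℚ) < 1 := by
    intro x hx
    rw [h4]
    exact pow_lt_one₀ zero_le' hx (by norm_num)
  have hpow1 : ∀ x : ℤ, w.valuation ℚ (x : ℚ) = 1 → w.valuation ℚ (((-x ^ 4 : ℤ)) : ℚ) = 1 := by
    intro x hx
    rw [h4, hx, one_pow]
  have hpZ : Prime (p : ℤ) := Nat.prime_iff_prime_int.mp hp
  rcases hpZ.dvd_or_dvd hdiv with hu | hv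
  · have h5 := hlt u hu
    have h6 : w.valuation ℚ (v : ℚ) = 1 := (val_cop w u v hcop).resolve_left h5.ne
    exact key w _ _ h2 (hpow u h5) (hpow1 v h6)
  · have h5 := hlt v hv
    have h6 : w.valuation ℚ (u : ℚ) = 1 := (val_cop w u v hcop).resolve_right h5.ne
    rw [crv_comm]
    exact key w _ _ h2 (hpow v h5) (hpow1 u h6)

end Pool.Agent.E8helper64.FT
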